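import Pool.Agent.W95.BK.Stm

/-! # BK-C: S_C from the local inequalities -/

set_option autoImplicit false

open Polynomial Topology Filter MeasureTheory
open scoped ENNReal

namespace Pool.Agent.W597.BK
open Pool.Agent.W95.BK

universe u

theorem isLocalDeg_of {K : Type u} [NontriviallyNormedField K] [IsUltrametricDist K] (f : RMap K)
    (x : P1B K) (h : 2 ≤ localDeg f x) : IsLocalDeg f x (localDeg f x) := by
  classical
  by_cases h1 : ∃ m, IsLocalDeg f x m
  · have h2 : localDeg f x = Nat.find h1 := by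
      unfold localDeg
      rw [dif_pos h1]
    rw [h2]
    exact Nat.find_spec h1
  · exfalso
    have h2 : localDeg f x = 0 := by
      unfold localDeg
      rw [dif_neg h1]
    omega

theorem max_le_of {K : Type u} [NontriviallyNormedField K] [IsUltrametricDist K] {a a' b : K}
    {r : ℝ} (h : ‖a - a'‖ ≤ r) : max ‖a - b‖ r ≤ max ‖a' - b‖ r := by
  refine max_le ?_ (le_max_right _ _)
  have h1 := IsUltrametricDist.norm_add_le_max (a - a') (a' - b)
  rw [sub_add_sub_cancel] at h1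
  refine h1.trans (max_le (h.trans (le_max_right _ _)) (le_max_left _ _))

theorem main : S_COMB.{u} → S_CENTER.{u} → S_NWI.{u} → S_SUMDIR.{u} → S_S2.{u} → S_S1.{u} →
    S_GLAM.{u} → S_VAL.{u} → S_C.{u} := by
  intro hCOMB hCEN hNWI hSUM hS2 hS1 hGLAM hVAL
  intro K _ _ _ f I J a r hI hJ0 hJ1 hIJ hIa hJa hr
  classical
  have hch : ∀ x ∈ I, ∃ (a : K) (r : ℝ), 0 < r ∧ (∃ c : K, ‖c‖ = r) ∧
      ∀ hr : 0 < r, x = gauss a r hr := by
    intro x hx
    obtain ⟨⟨a, r, hr, hc, hxx⟩, -, -⟩ := hI x hx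
    exact ⟨a, r, hr, hc, fun _ => hxx⟩
  choose! A R hR hC hx using hch
  have hlam : ∀ x ∈ I, ∀ b : K, lam x b = max ‖A x - b‖ (R x) := by
    intro x hxI b
    have h1 := (hGLAM K (A x) b).2 (R x) (hR x hxI)
    rwa [← hx x hxI] at h1
  have hinj : ∀ x ∈ I, ∀ y ∈ I, R x = R y → ‖A x - A y‖ ≤ R x → x = y := by
    intro x hxI y hyI h1 h2
    have h3 : lam x = lam y := by
      funext b
      rw [hlam x hxI, hlam y hyI, ← h1]
      refine le_antisymm (max_le_of h2) (max_le_of ?_)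
      rwa [norm_sub_rev]
    refine BA.ext fun h => ?_
    rw [hVAL K x h, hVAL K y h, h3]
  set φ : BA K → K × ℝ := fun x => (A x, R x) with hφ
  set w : K × ℝ → ℕ := fun p => if h : 0 < p.2 then
    localDeg f ((gauss p.1 p.2 h : BA K) : P1B K) - 1 else 0 with hw
  have hwφ : ∀ x ∈ I, w (φ x) = localDeg f (x : P1B K) - 1 := by
    intro x hxI
    have h1 : 0 < (φ x).2 := hR x hxI
    rw [hw]
    simp only [dif_pos h1]
    have h2 := hx x hxI (hR x hxI)
    show localDeg f ((gauss (A x) (R x) (hR x hxI) : BA K) : P1B K) - 1 = _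
    rw [← h2]
  have hφinj : Set.InjOn φ I := by
    intro x hxI y hyI h
    have h1 : A x = A y := congrArg Prod.fst h
    have h2 : R x = R y := congrArg Prod.snd h
    refine hinj x hxI y hyI h2 ?_
    rw [h1, sub_self, norm_zero]
    exact (hR x hxI).le
  have hcomb := hCOMB K (Nw f) (fun a a' r h => hCEN K f a a' r h)
    (fun a r r' h h' => (hNWI K f a r h).2.2.2.1 r' h') ?_ (I.image φ) w ?_ ?_ ?_ J hJ0 hJ1 ?_ a r
    ?_ hJa
  · rw [Finset.sum_image hφinj, Finset.sum_congr rfl hwφ] at hcomb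
    exact hcomb
  · -- H3
    intro a r r' h0 h1 hc Z hZ1 hZ2
    obtain ⟨c, hc⟩ := hc
    have h2 := hSUM K f a c r h0 hc Z hZ1 hZ2
    have h3 := (hNWI K f a r h0).2.2.2.2.2 r' h1
    rcases Nat.lt_or_ge (Nw f a r') (Iw f a r) with h4 | h4
    · have h5 : Iw f a r = Nw f a r' + 1 := by omega
      have h6 := hS2 K f a c r r' h0 hc h1 h5 Z hZ1 hZ2
      omega
    · omega
  · -- H4
    intro p hp
    obtain ⟨x, hxI, rfl⟩ := Finset.mem_image.1 hp
    exact ⟨hR x hxI, hC x hxI⟩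
  · -- H5
    intro p hp r' hr' Z hZ1 hZ2
    obtain ⟨x, hxI, rfl⟩ := Finset.mem_image.1 hp
    rw [hwφ x hxI]
    obtain ⟨c, hc⟩ := hC x hxI
    obtain ⟨-, hfix, hdeg⟩ := hI x hxI
    have h1 := isLocalDeg_of f (x : P1B K) hdeg
    have hxx := hx x hxI (hR x hxI)
    have h2 := hS1 K f (A x) c (R x) (hR x hxI) hc (by rw [← hxx]; exact hfix)
      (localDeg f (x : P1B K)) (by rw [← hxx]; exact h1) Z hZ1 hZ2
    have h3 := (hNWI K f (A x) (R x) (hR x hxI)).2.2.2.2.2 r' hr'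
    show ∑ z ∈ Z, Nw f z (R x) + (localDeg f (x : P1B K) - 1) ≤ Nw f (A x) r'
    omega
  · -- H6
    intro p hp q hq hpq hh
    obtain ⟨x, hxI, rfl⟩ := Finset.mem_image.1 hp
    obtain ⟨y, hyI, rfl⟩ := Finset.mem_image.1 hq
    exact hpq (congrArg φ (hinj x hxI y hyI hh.1 hh.2))
  · -- H9
    intro p hp q hq
    obtain ⟨x, hxI, rfl⟩ := Finset.mem_image.1 hp
    have h1 := hIJ x hxI q hq
    rwa [hlam x hxI] at h1
  · -- H10
    intro p hp
    obtain ⟨x, hxI, rfl⟩ := Finset.mem_image.1 hp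
    have h1 := hIa x hxI
    rw [hlam x hxI, max_lt_iff] at h1
    exact h1

end Pool.Agent.W597.BK
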